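import Mathlib
import Pool.Agent.U845.XM.Stm
import Pool.Agent.N916.GB.Fin

/-!
# Project XM, package DEN (helper678): the natural density
-/

set_option autoImplicit false
set_option linter.unusedVariables false

open scoped Classical

namespace Pool.Agent.U678.XM

open Finset Filter
open Pool.Agent.N916.GB (Gd Ok eta)
open Pool.Agent.U845.XM (Nc Par S_DEN)

/-- all the numbers of a family -/
noncomputable def TT (K : Finset ℕ) (X : ℕ) : Finset ℕ :=
  (Icc 1 X).filter fun n => Squarefree n ∧ n % 120 ∈ K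

/-- the good numbers of a family -/
noncomputable def GG (t : Bool) (r s : ZMod 2) (K : Finset ℕ) (X : ℕ) : Finset ℕ :=
  (Icc 1 X).filter fun n => Squarefree n ∧ n % 120 ∈ K ∧ Gd t r s n.primeFactors

theorem fam (t : Bool) (r s : ZMod 2) (K : Finset ℕ) (hok : Ok t r s K) (a : ℕ) (ha : a ∈ K)
    (hc : a.Coprime 120) : ∃ X₀ : ℕ, ∀ X : ℕ, X₀ ≤ X →
      0.2887 * ((TT K X).card : ℝ) ≤ ((GG t r s K X).card : ℝ) := by
  have h2 := (Pool.Agent.N916.GB.density t r s K hok a ha hc).eventually_const_lt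
    Pool.Agent.N916.GB.eta_bounds.1
  obtain ⟨X₀, hX₀⟩ := eventually_atTop.1 h2
  refine ⟨X₀, fun X hX => ?_⟩
  have h3 := hX₀ X hX
  have h4 : (0 : ℝ) ≤ ((TT K X).card : ℝ) := Nat.cast_nonneg _
  rcases h4.lt_or_eq with h5 | h5
  · have h6 := (lt_div_iff₀ h5).1 h3
    exact h6.le
  · rw [← h5, mul_zero]
    exact Nat.cast_nonneg _

/-- the residues -/
def K1 : Finset ℕ := (range 120).filter fun a => a % 4 = 3 ∧ a % 3 ≠ 1 ∧ a % 5 ≠ 1 ∧ a % 5 ≠ 4
def K2 : Finset ℕ := (range 120).filter fun a => a % 4 = 1 ∧ a % 3 ≠ 1 ∧ a % 5 ≠ 1 ∧ a % 5 ≠ 4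
def K3 : Finset ℕ := (range 120).filter fun a =>
  a % 4 = 3 ∧ (2 * a) % 3 ≠ 1 ∧ (2 * a) % 5 ≠ 1 ∧ (2 * a) % 5 ≠ 4
def K4 : Finset ℕ := (range 120).filter fun a =>
  a % 4 = 1 ∧ (2 * a) % 3 ≠ 1 ∧ (2 * a) % 5 ≠ 1 ∧ (2 * a) % 5 ≠ 4

theorem mem_K1 (n : ℕ) : n % 120 ∈ K1 ↔ n % 4 = 3 ∧ n % 3 ≠ 1 ∧ n % 5 ≠ 1 ∧ n % 5 ≠ 4 := by
  unfold K1
  rw [mem_filter, mem_range]
  omega

theorem mem_K2 (n : ℕ) : n % 120 ∈ K2 ↔ n % 4 = 1 ∧ n % 3 ≠ 1 ∧ n % 5 ≠ 1 ∧ n % 5 ≠ 4 := by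
  unfold K2
  rw [mem_filter, mem_range]
  omega

theorem mem_K3 (n : ℕ) : n % 120 ∈ K3 ↔
    n % 4 = 3 ∧ (2 * n) % 3 ≠ 1 ∧ (2 * n) % 5 ≠ 1 ∧ (2 * n) % 5 ≠ 4 := by
  unfold K3
  rw [mem_filter, mem_range]
  omega

theorem mem_K4 (n : ℕ) : n % 120 ∈ K4 ↔
    n % 4 = 1 ∧ (2 * n) % 3 ≠ 1 ∧ (2 * n) % 5 ≠ 1 ∧ (2 * n) % 5 ≠ 4 := by
  unfold K4
  rw [mem_filter, mem_range]
  omega

theorem sqf_two {m : ℕ} (hm : m % 2 = 1) : Squarefree (2 * m) ↔ Squarefree m := by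
  rw [Nat.squarefree_mul_iff]
  constructor
  · exact fun h => h.2.2
  · exact fun h => ⟨(Nat.coprime_two_left).2 (Nat.odd_iff.2 hm), Nat.prime_two.squarefree, h⟩

theorem not_four {n : ℕ} (h : Squarefree n) : n % 4 ≠ 0 := by
  intro h4
  have h1 : 2 * 2 ∣ n := Nat.dvd_of_mod_eq_zero h4
  have h2 := h 2 h1
  rw [Nat.isUnit_iff] at h2
  omega

/-- the upper bound -/
theorem upper (X : ℕ) : ((Icc 1 X).filter Nc).card ≤
    (TT K1 X).card + (TT K2 X).card + ((TT K3 (X / 2)).card + (TT K4 (X / 2)).card) := by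
  have hsub : (Icc 1 X).filter Nc ⊆ (TT K1 X ∪ TT K2 X) ∪
      ((TT K3 (X / 2)).image (fun m => 2 * m) ∪ (TT K4 (X / 2)).image fun m => 2 * m) := by
    intro n hn
    rw [mem_filter, mem_Icc] at hn
    obtain ⟨⟨h1, h2⟩, hsq, h3, h51, h54⟩ := hn
    have h4 := not_four hsq
    simp only [mem_union, mem_image, TT, mem_filter, mem_Icc, mem_K1, mem_K2, mem_K3, mem_K4]
    have h5 : n % 4 = 1 ∨ n % 4 = 3 ∨ n % 4 = 2 := by omega
    rcases h5 with h5 | h5 | h5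
    · exact Or.inl (Or.inr ⟨⟨h1, h2⟩, hsq, h5, h3, h51, h54⟩)
    · exact Or.inl (Or.inl ⟨⟨h1, h2⟩, hsq, h5, h3, h51, h54⟩)
    · right
      have h6 : n = 2 * (n / 2) := by omega
      have h7 : Squarefree (n / 2) := by
        rw [← sqf_two (by omega), ← h6]
        exact hsq
      have h8 : (n / 2) % 4 = 3 ∨ (n / 2) % 4 = 1 := by omega
      rcases h8 with h8 | h8
      · left
        refine ⟨n / 2, ⟨⟨by omega, by omega⟩, h7, h8, ?_, ?_, ?_⟩, h6.symm⟩
        · rw [← h6]; exact h3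
        · rw [← h6]; exact h51
        · rw [← h6]; exact h54
      · right
        refine ⟨n / 2, ⟨⟨by omega, by omega⟩, h7, h8, ?_, ?_, ?_⟩, h6.symm⟩
        · rw [← h6]; exact h3
        · rw [← h6]; exact h51
        · rw [← h6]; exact h54
  refine (card_le_card hsub).trans ((card_union_le _ _).trans ?_)
  refine Nat.add_le_add (card_union_le _ _) ((card_union_le _ _).trans ?_)
  exact Nat.add_le_add card_image_le card_image_le

/-- the lower bound -/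
theorem lower (P : ℕ → Prop) (hP : ∀ (n : ℕ) (t : Bool) (r s : ZMod 2) (m : ℕ), Nc n →
    Par n t r s m → Gd t r s m.primeFactors → P n) (X : ℕ) :
    (GG false 0 0 K1 X).card + (GG true 0 1 K2 X).card +
      ((GG true 1 0 K3 (X / 2)).card + (GG true 1 1 K4 (X / 2)).card) ≤
    ((Icc 1 X).filter fun n => Nc n ∧ P n).card := by
  have h01 : (0 : ZMod 2) ≠ 1 := by decide
  have h10 : (1 : ZMod 2) ≠ 0 := by decide
  have hinj : Function.Injective (fun m : ℕ => 2 * m) := fun a b h => by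
    simp only at h
    omega
  rw [← card_image_of_injective (GG true 1 0 K3 (X / 2)) hinj,
    ← card_image_of_injective (GG true 1 1 K4 (X / 2)) hinj]
  have d1 : Disjoint (GG false 0 0 K1 X) (GG true 0 1 K2 X) := by
    rw [disjoint_left]
    intro n h1 h2
    rw [GG, mem_filter, mem_K1] at h1
    rw [GG, mem_filter, mem_K2] at h2
    omega
  have d2 : Disjoint ((GG true 1 0 K3 (X / 2)).image fun m => 2 * m)
      ((GG true 1 1 K4 (X / 2)).image fun m => 2 * m) := by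
    rw [disjoint_left]
    intro n h1 h2
    rw [mem_image] at h1 h2
    obtain ⟨m, h1, rfl⟩ := h1
    obtain ⟨m', h2, h3⟩ := h2
    rw [GG, mem_filter, mem_K3] at h1
    rw [GG, mem_filter, mem_K4] at h2
    omega
  have d3 : Disjoint (GG false 0 0 K1 X ∪ GG true 0 1 K2 X)
      (((GG true 1 0 K3 (X / 2)).image fun m => 2 * m) ∪
      ((GG true 1 1 K4 (X / 2)).image fun m => 2 * m)) := by
    rw [disjoint_left]
    intro n h1 h2
    have h3 : n % 2 = 1 := by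
      rcases mem_union.1 h1 with h1 | h1
      · rw [GG, mem_filter, mem_K1] at h1
        omega
      · rw [GG, mem_filter, mem_K2] at h1
        omega
    have h4 : n % 2 = 0 := by
      rcases mem_union.1 h2 with h2 | h2
      · rw [mem_image] at h2
        obtain ⟨m, _, rfl⟩ := h2
        omega
      · rw [mem_image] at h2
        obtain ⟨m, _, rfl⟩ := h2
        omega
    omega
  rw [← card_union_of_disjoint d1, ← card_union_of_disjoint d2, ← card_union_of_disjoint d3]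
  apply card_le_card
  intro n hn
  rcases mem_union.1 hn with hn | hn
  · rcases mem_union.1 hn with hn | hn
    · rw [GG, mem_filter, mem_K1, mem_Icc] at hn
      obtain ⟨⟨h1, h2⟩, hsq, ⟨h3, h4, h5, h6⟩, hg⟩ := hn
      have hNc : Nc n := ⟨hsq, h4, h5, h6⟩
      refine mem_filter.2 ⟨mem_Icc.2 ⟨h1, h2⟩, hNc, hP n false 0 0 n hNc ⟨?_, ?_, ?_⟩ hg⟩
      · rw [if_neg h01]
      · rw [if_pos rfl, h3]
      · simp
    · rw [GG, mem_filter, mem_K2, mem_Icc] at hn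
      obtain ⟨⟨h1, h2⟩, hsq, ⟨h3, h4, h5, h6⟩, hg⟩ := hn
      have hNc : Nc n := ⟨hsq, h4, h5, h6⟩
      refine mem_filter.2 ⟨mem_Icc.2 ⟨h1, h2⟩, hNc, hP n true 0 1 n hNc ⟨?_, ?_, ?_⟩ hg⟩
      · rw [if_neg h01]
      · rw [if_neg h10, h3]
      · simp
  · rcases mem_union.1 hn with hn | hn
    · obtain ⟨m, hm, rfl⟩ := mem_image.1 hn
      rw [GG, mem_filter, mem_K3, mem_Icc] at hm
      obtain ⟨⟨h1, h2⟩, hsq, ⟨h3, h4, h5, h6⟩, hg⟩ := hm
      have hNc : Nc (2 * m) := ⟨(sqf_two (by omega)).2 hsq, h4, h5, h6⟩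
      refine mem_filter.2 ⟨mem_Icc.2 ⟨by omega, by omega⟩, hNc,
        hP (2 * m) true 1 0 m hNc ⟨?_, ?_, ?_⟩ hg⟩
      · rw [if_pos rfl]
      · rw [if_pos rfl, h3]
      · simp
    · obtain ⟨m, hm, rfl⟩ := mem_image.1 hn
      rw [GG, mem_filter, mem_K4, mem_Icc] at hm
      obtain ⟨⟨h1, h2⟩, hsq, ⟨h3, h4, h5, h6⟩, hg⟩ := hm
      have hNc : Nc (2 * m) := ⟨(sqf_two (by omega)).2 hsq, h4, h5, h6⟩
      refine mem_filter.2 ⟨mem_Icc.2 ⟨by omega, by omega⟩, hNc,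
        hP (2 * m) true 1 1 m hNc ⟨?_, ?_, ?_⟩ hg⟩
      · rw [if_pos rfl]
      · rw [if_neg h10, h3]
      · simp

theorem t_DEN : S_DEN := by
  intro P hP
  obtain ⟨A1, h1⟩ := fam false 0 0 K1
    ⟨fun _ => rfl, fun h => by simp at h, fun a ha => by
      rw [K1, mem_filter, mem_range] at ha
      rw [if_pos rfl]
      exact ⟨ha.1, ha.2.1⟩⟩ 23 (by decide) (by decide)
  obtain ⟨A2, h2⟩ := fam true 0 1 K2
    ⟨fun h => by simp at h, fun _ => Or.inr (by decide), fun a ha => by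
      rw [K2, mem_filter, mem_range] at ha
      rw [if_neg (by decide)]
      exact ⟨ha.1, ha.2.1⟩⟩ 17 (by decide) (by decide)
  obtain ⟨A3, h3⟩ := fam true 1 0 K3
    ⟨fun h => by simp at h, fun _ => Or.inl (by decide), fun a ha => by
      rw [K3, mem_filter, mem_range] at ha
      rw [if_pos rfl]
      exact ⟨ha.1, ha.2.1⟩⟩ 31 (by decide) (by decide)
  obtain ⟨A4, h4⟩ := fam true 1 1 K4
    ⟨fun h => by simp at h, fun _ => Or.inl (by decide), fun a ha => by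
      rw [K4, mem_filter, mem_range] at ha
      rw [if_neg (by decide)]
      exact ⟨ha.1, ha.2.1⟩⟩ 1 (by decide) (by decide)
  refine ⟨A1 + A2 + 2 * A3 + 2 * A4, fun X hX => ?_⟩
  have e1 := h1 X (by omega)
  have e2 := h2 X (by omega)
  have e3 := h3 (X / 2) (by omega)
  have e4 := h4 (X / 2) (by omega)
  have hu : ((((Icc 1 X).filter Nc).card : ℕ) : ℝ) ≤ (TT K1 X).card + (TT K2 X).card +
      ((TT K3 (X / 2)).card + (TT K4 (X / 2)).card) := by
    exact_mod_cast upper X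
  have hl : ((GG false 0 0 K1 X).card : ℝ) + (GG true 0 1 K2 X).card +
      ((GG true 1 0 K3 (X / 2)).card + (GG true 1 1 K4 (X / 2)).card) ≤
      ((((Icc 1 X).filter fun n => Nc n ∧ P n).card : ℕ) : ℝ) := by
    exact_mod_cast lower P hP X
  linarith

end Pool.Agent.U678.XM
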